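import Pool.Agent.H487R3.Cau.Stmts

set_option autoImplicit false

open MeasureTheory Filter Set Topology
open scoped ENNReal NNReal

namespace Pool.Agent.H71R3.Cau

open Pool.Agent.H487R3.Cau

variable {a : ℝ → ℂ}

lemma a_lip (ha : LipschitzWith (1 / 10) a) (x y : ℝ) : ‖a y - a x‖ ≤ 1 / 10 * |y - x| := by
  have h := ha.dist_le_mul y x
  rw [dist_eq_norm, Real.dist_eq] at h
  simpa using h

lemma re_lower (ha : LipschitzWith (1 / 10) a) (x y : ℝ) (δ : ℝ) :
    9 / 10 * |y - x| ≤ |(G a y - G a x + δ * Complex.I).re| := by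
  have h1 : (G a y - G a x + δ * Complex.I).re = (y - x) + (a y - a x).re := by
    simp [G]; ring
  have h2 : |(a y - a x).re| ≤ 1 / 10 * |y - x| := (Complex.abs_re_le_norm _).trans (a_lip ha x y)
  rw [h1]
  have h3 : |y - x| ≤ |(y - x) + (a y - a x).re| + |(a y - a x).re| := by
    calc |y - x| = |((y - x) + (a y - a x).re) - (a y - a x).re| := by ring_nf
      _ ≤ _ := abs_sub _ _
  linarith

lemma den_lower (ha : LipschitzWith (1 / 10) a) (x y : ℝ) (δ : ℝ) :
    9 / 10 * |y - x| ≤ ‖G a y - G a x + δ * Complex.I‖ :=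
  (re_lower ha x y δ).trans (Complex.abs_re_le_norm _)

lemma den_lower' (ha : LipschitzWith (1 / 10) a) (x y : ℝ) {δ : ℝ} (_hδ : 0 < δ) :
    9 / 10 * δ ≤ ‖G a y - G a x + δ * Complex.I‖ := by
  by_cases h : δ ≤ |y - x|
  · exact le_trans (by linarith) (den_lower ha x y δ)
  · push Not at h
    refine le_trans ?_ (Complex.abs_im_le_norm _)
    have h1 : (G a y - G a x + δ * Complex.I).im = δ + (a y - a x).im := by
      simp [G]; ring
    rw [h1]
    have h2 : |(a y - a x).im| ≤ 1 / 10 * |y - x| :=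
      (Complex.abs_im_le_norm _).trans (a_lip ha x y)
    have h3 : -|(a y - a x).im| ≤ (a y - a x).im := neg_abs_le _
    have h4 := le_abs_self (δ + (a y - a x).im)
    linarith

lemma G_upper (ha : LipschitzWith (1 / 10) a) (x y : ℝ) : ‖G a y - G a x‖ ≤ 11 / 10 * |y - x| := by
  have h1 : G a y - G a x = ((y - x : ℝ) : ℂ) + (a y - a x) := by
    simp [G]; ring
  rw [h1]
  refine (norm_add_le _ _).trans ?_
  have := a_lip ha x y
  rw [Complex.norm_real, Real.norm_eq_abs]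
  linarith

lemma K_bound (ha : LipschitzWith (1 / 10) a) (x y : ℝ) {δ : ℝ} (hδ : 0 < δ) :
    ‖K a δ x y‖ ≤ (9 / 10 * δ)⁻¹ := by
  rw [K, norm_inv]
  exact inv_anti₀ (by positivity) (den_lower' ha x y hδ)

lemma K_cont (ha : LipschitzWith (1 / 10) a) {δ : ℝ} (hδ : 0 < δ) :
    Continuous (fun p : ℝ × ℝ => K a δ p.1 p.2) := by
  have hc := ha.continuous
  unfold K G
  refine Continuous.inv₀ (by fun_prop) ?_
  intro p hp
  have h := den_lower' ha p.1 p.2 hδ
  unfold G at h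
  rw [hp, norm_zero] at h
  linarith

lemma K_diff (ha : LipschitzWith (1 / 10) a) {s t x ε δ : ℝ} (hδ : 0 < δ) (hx : |x - t| ≤ ε / 4)
    (hε : 0 < ε) (hs : ε < |s - t|) :
    ‖(G a s - G a t)⁻¹ - K a δ x s‖ ≤ 2 * (ε + δ) / (s - t) ^ 2 := by
  have hst : 0 < |s - t| := hε.trans hs
  have h1 : 9 / 10 * |s - t| ≤ ‖G a s - G a t‖ := by
    have := den_lower ha t s 0
    simpa using this
  have h2 : 9 / 10 * |s - x| ≤ ‖G a s - G a x + δ * Complex.I‖ := den_lower ha x s δ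
  have h3 : 3 / 4 * |s - t| ≤ |s - x| := by
    have : |s - t| ≤ |s - x| + |x - t| := by
      calc |s - t| = |(s - x) + (x - t)| := by ring_nf
        _ ≤ _ := abs_add_le _ _
    linarith
  have h4 : 27 / 40 * |s - t| ≤ ‖G a s - G a x + δ * Complex.I‖ := by linarith
  have hne1 : G a s - G a t ≠ 0 := by
    intro h; rw [h, norm_zero] at h1; linarith
  have hne2 : G a s - G a x + δ * Complex.I ≠ 0 := by
    intro h; rw [h, norm_zero] at h4; linarith
  have h5 : (G a s - G a t)⁻¹ - K a δ x s =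
      (-(G a x - G a t) + δ * Complex.I) / ((G a s - G a t) * (G a s - G a x + δ * Complex.I)) := by
    unfold K
    field_simp
    ring
  rw [h5, norm_div, norm_mul]
  have h6 : ‖-(G a x - G a t) + δ * Complex.I‖ ≤ 11 / 10 * (ε / 4) + δ := by
    refine (norm_add_le _ _).trans ?_
    rw [norm_neg, norm_mul, Complex.norm_I, mul_one, Complex.norm_real, Real.norm_eq_abs,
      abs_of_pos hδ]
    have := G_upper ha t x
    have : 11 / 10 * |x - t| ≤ 11 / 10 * (ε / 4) := by gcongr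
    linarith
  have h7 : (9 / 10 * |s - t|) * (27 / 40 * |s - t|) ≤
      ‖G a s - G a t‖ * ‖G a s - G a x + δ * Complex.I‖ := by
    gcongr
  have h8 : (9 / 10 * |s - t|) * (27 / 40 * |s - t|) = 243 / 400 * (s - t) ^ 2 := by
    rw [← sq_abs (s - t)]; ring
  rw [h8] at h7
  have h9 : 0 < (s - t) ^ 2 := by rw [← sq_abs]; positivity
  calc ‖-(G a x - G a t) + δ * Complex.I‖ / (‖G a s - G a t‖ * ‖G a s - G a x + δ * Complex.I‖)
      ≤ (11 / 10 * (ε / 4) + δ) / (243 / 400 * (s - t) ^ 2) := by gcongr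
    _ ≤ 2 * (ε + δ) / (s - t) ^ 2 := by
      rw [div_le_div_iff₀ (by positivity) h9]
      nlinarith [mul_pos hε h9, mul_pos hδ h9]

/-- The regularised Cauchy integral. -/
noncomputable def hh (a : ℝ → ℂ) (α δ : ℝ) (f : ℝ → ℂ) (x : ℝ) : ℂ :=
  ∫ y in Ico α (α + 1), f y * K a δ x y

lemma fK_int (ha : LipschitzWith (1 / 10) a) {δ : ℝ} (hδ : 0 < δ) {f : ℝ → ℂ} {μ : Measure ℝ}
    (hf : Integrable f μ) (x : ℝ) : Integrable (fun y => f y * K a δ x y) μ := by
  refine hf.mul_bdd (c := (9 / 10 * δ)⁻¹) ?_ ?_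
  · exact ((K_cont ha hδ).comp (by fun_prop : Continuous fun y : ℝ => (x, y))).aestronglyMeasurable
  · exact Eventually.of_forall fun y => K_bound ha x y hδ

lemma hh_cont (ha : LipschitzWith (1 / 10) a) {α δ : ℝ} (hδ : 0 < δ) {f : ℝ → ℂ}
    (hf : Integrable f (volume.restrict (Ico α (α + 1)))) : Continuous (hh a α δ f) := by
  unfold hh
  refine continuous_of_dominated (bound := fun y => ‖f y‖ * (9 / 10 * δ)⁻¹) ?_ ?_ ?_ ?_
  · intro x
    exact (fK_int ha hδ hf x).aestronglyMeasurable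
  · intro x
    refine Eventually.of_forall fun y => ?_
    rw [norm_mul]
    gcongr
    exact K_bound ha x y hδ
  · exact hf.norm.mul_const _
  · refine Eventually.of_forall fun y => ?_
    exact continuous_const.mul
      ((K_cont ha hδ).comp (by fun_prop : Continuous fun x : ℝ => (x, y)))

lemma hh_bound (ha : LipschitzWith (1 / 10) a) {α δ : ℝ} (hδ : 0 < δ) {f : ℝ → ℂ}
    (hf : Integrable f (volume.restrict (Ico α (α + 1)))) (x : ℝ) :
    ‖hh a α δ f x‖ ≤ (∫ y in Ico α (α + 1), ‖f y‖) * (9 / 10 * δ)⁻¹ := by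
  unfold hh
  rw [← integral_mul_const]
  refine norm_integral_le_of_norm_le (hf.norm.mul_const _) ?_
  refine Eventually.of_forall fun y => ?_
  rw [norm_mul]
  gcongr
  exact K_bound ha x y hδ

lemma hh_memLp (ha : LipschitzWith (1 / 10) a) {α δ : ℝ} (hδ : 0 < δ) {f : ℝ → ℂ}
    (hf : Integrable f (volume.restrict (Ico α (α + 1)))) :
    MemLp (hh a α δ f) 2 (volume.restrict (Ico α (α + 1))) := by
  refine MemLp.of_bound (hh_cont ha hδ hf).aestronglyMeasurable
    ((∫ y in Ico α (α + 1), ‖f y‖) * (9 / 10 * δ)⁻¹) ?_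
  exact Eventually.of_forall fun x => hh_bound ha hδ hf x

/-- The bilinear bound for a fixed curve. -/
def BB (a : ℝ → ℂ) (α C : ℝ) : Prop :=
  ∀ δ : ℝ, 0 < δ → δ ≤ 1 → ∀ f g : ℝ → ℂ, MemLp f 2 (volume.restrict (Ico α (α + 1))) →
      MemLp g 2 (volume.restrict (Ico α (α + 1))) →
      ‖∫ x in Ico α (α + 1), ∫ y in Ico α (α + 1), f x * g y * K a δ x y‖ ≤
        C * √(∫ x in Ico α (α + 1), ‖f x‖ ^ 2) * √(∫ x in Ico α (α + 1), ‖g x‖ ^ 2)

lemma BB' {α C : ℝ} (hB : BB a α C) {δ : ℝ} (hδ : 0 < δ) (hδ1 : δ ≤ 1) (g f : ℝ → ℂ)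
    (hg : MemLp g 2 (volume.restrict (Ico α (α + 1))))
    (hf : MemLp f 2 (volume.restrict (Ico α (α + 1)))) :
    ‖∫ x in Ico α (α + 1), g x * hh a α δ f x‖ ≤
      C * √(∫ x in Ico α (α + 1), ‖g x‖ ^ 2) * √(∫ x in Ico α (α + 1), ‖f x‖ ^ 2) := by
  have h := hB δ hδ hδ1 g f hg hf
  have e : ∀ x, ∫ y in Ico α (α + 1), g x * f y * K a δ x y = g x * hh a α δ f x := by
    intro x
    unfold hh
    rw [← integral_const_mul]
    congr 1
    funext y
    ring
  simpa only [e] using h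

lemma hh_norm (ha : LipschitzWith (1 / 10) a) {α C : ℝ} (hC : 0 ≤ C) (hB : BB a α C) {δ : ℝ}
    (hδ : 0 < δ) (hδ1 : δ ≤ 1) (f : ℝ → ℂ) (hf : MemLp f 2 (volume.restrict (Ico α (α + 1)))) :
    √(∫ x in Ico α (α + 1), ‖hh a α δ f x‖ ^ 2) ≤ C * √(∫ x in Ico α (α + 1), ‖f x‖ ^ 2) := by
  have hfi : Integrable f (volume.restrict (Ico α (α + 1))) := hf.integrable (by norm_num)
  have hm := hh_memLp ha hδ hfi
  have h := BB' hB hδ hδ1 (fun x => star (hh a α δ f x)) f hm.star hf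
  have e : ∫ x in Ico α (α + 1), star (hh a α δ f x) * hh a α δ f x =
      ((∫ x in Ico α (α + 1), ‖hh a α δ f x‖ ^ 2 : ℝ) : ℂ) := by
    rw [← integral_complex_ofReal]
    congr 1
    funext x
    rw [show star (hh a α δ f x) = (starRingEnd ℂ) (hh a α δ f x) from rfl, mul_comm,
      Complex.mul_conj, Complex.normSq_eq_norm_sq]
  rw [e] at h
  simp only [norm_star] at h
  have hnn : 0 ≤ ∫ x in Ico α (α + 1), ‖hh a α δ f x‖ ^ 2 :=
    integral_nonneg fun x => by positivity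
  rw [Complex.norm_real, Real.norm_eq_abs, abs_of_nonneg hnn] at h
  set H := √(∫ x in Ico α (α + 1), ‖hh a α δ f x‖ ^ 2) with hH
  have hsq : H * H = ∫ x in Ico α (α + 1), ‖hh a α δ f x‖ ^ 2 := Real.mul_self_sqrt hnn
  rw [← hsq] at h
  rcases (Real.sqrt_nonneg (∫ x in Ico α (α + 1), ‖hh a α δ f x‖ ^ 2)).eq_or_lt with h0 | h0
  · rw [← hH] at h0
    rw [← h0]
    positivity
  · rw [← hH] at h0
    refine le_of_mul_le_mul_left ?_ h0
    calc H * H ≤ _ := h
      _ = _ := by ring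


/-! ## The weak limit -/

lemma norm_toLp_two {μ : Measure ℝ} {u : ℝ → ℂ} (hu : MemLp u 2 μ) :
    ‖hu.toLp u‖ = √(∫ x, ‖u x‖ ^ 2 ∂μ) := by
  rw [Lp.norm_toLp, hu.eLpNorm_eq_integral_rpow_norm (by norm_num) (by norm_num),
    ENNReal.toReal_ofReal (by positivity), Real.sqrt_eq_rpow]
  norm_num

lemma weak_limit {E : Type*} [NormedAddCommGroup E] [InnerProductSpace ℂ E] [CompleteSpace E]
    (H : ℕ → E) (M : ℝ) (hM : ∀ n, ‖H n‖ ≤ M) :
    ∃ h : E, ‖h‖ ≤ M ∧ ∀ g : E, Tendsto (fun n => inner ℂ g (H n)) (hyperfilter ℕ : Filter ℕ)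
      (𝓝 (inner ℂ g h)) := by
  let Φ : ℕ → WeakDual ℂ E := fun n => StrongDual.toWeakDual (InnerProductSpace.toDual ℂ E (H n))
  have hK := WeakDual.isCompact_closedBall (𝕜 := ℂ) (E := E) 0 M
  obtain ⟨φ, hφ, hlim⟩ := hK.ultrafilter_le_nhds ((hyperfilter ℕ).map Φ) (by
    rw [Ultrafilter.coe_map, le_principal_iff, mem_map]
    refine Filter.univ_mem' fun n => ?_
    simp only [Set.mem_preimage, mem_closedBall_zero_iff]
    exact (LinearIsometryEquiv.norm_map (InnerProductSpace.toDual ℂ E) (H n)).le.trans (hM n))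
  have hlim' : Tendsto Φ (hyperfilter ℕ : Filter ℕ) (𝓝 φ) := hlim
  refine ⟨(InnerProductSpace.toDual ℂ E).symm (WeakDual.toStrongDual φ), ?_, fun g => ?_⟩
  · rw [LinearIsometryEquiv.norm_map]
    simpa using hφ
  · have h1 : Tendsto (fun n => Φ n g) (hyperfilter ℕ : Filter ℕ) (𝓝 (φ g)) :=
      ((WeakDual.eval_continuous g).tendsto φ).comp hlim'
    have h2 : ∀ n, Φ n g = inner ℂ (H n) g := fun n => by
      exact InnerProductSpace.toDual_apply_apply ..
    have h3 : φ g = inner ℂ ((InnerProductSpace.toDual ℂ E).symm (WeakDual.toStrongDual φ)) g := by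
      rw [InnerProductSpace.toDual_symm_apply]; rfl
    simp only [h2] at h1
    rw [h3] at h1
    have h4 := (Complex.continuous_conj.tendsto _).comp h1
    rw [inner_conj_symm] at h4
    refine h4.congr fun n => ?_
    simp [Function.comp]

lemma exists_h (ha : LipschitzWith (1 / 10) a) {α C : ℝ} (hC : 0 ≤ C) (hB : BB a α C)
    (f : ℝ → ℂ) (hf : MemLp f 2 (volume.restrict (Ico α (α + 1)))) :
    ∃ h : ℝ → ℂ, StronglyMeasurable h ∧ MemLp h 2 (volume.restrict (Ico α (α + 1))) ∧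
      √(∫ x in Ico α (α + 1), ‖h x‖ ^ 2) ≤ C * √(∫ x in Ico α (α + 1), ‖f x‖ ^ 2) ∧
      ∀ B : Set ℝ, MeasurableSet B → B ⊆ Ico α (α + 1) →
        Tendsto (fun n : ℕ => ∫ x in B, hh a α (1 / ((n : ℝ) + 1)) f x)
          (hyperfilter ℕ : Filter ℕ) (𝓝 (∫ x in B, h x)) := by
  have hfi : Integrable f (volume.restrict (Ico α (α + 1))) := hf.integrable (by norm_num)
  have hδ : ∀ n : ℕ, 0 < 1 / ((n : ℝ) + 1) := fun n => by positivity
  have hδ1 : ∀ n : ℕ, 1 / ((n : ℝ) + 1) ≤ 1 := fun n => by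
    rw [div_le_one (by positivity)]; linarith [(Nat.cast_nonneg n : (0 : ℝ) ≤ n)]
  have hm := fun n : ℕ => hh_memLp ha (α := α) (hδ n) hfi
  obtain ⟨h, hh1, hh2⟩ := weak_limit (fun n : ℕ => (hm n).toLp _)
    (C * √(∫ x in Ico α (α + 1), ‖f x‖ ^ 2)) (fun n => by
      rw [norm_toLp_two]
      exact hh_norm ha hC hB (hδ n) (hδ1 n) f hf)
  refine ⟨h, Lp.stronglyMeasurable h, Lp.memLp h, ?_, ?_⟩
  · have := norm_toLp_two (Lp.memLp h)
    rw [Lp.toLp_coeFn] at this
    rw [← this]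
    exact hh1
  · intro B hBm hBs
    have hμ : (volume.restrict (Ico α (α + 1))) B ≠ ⊤ := measure_ne_top _ _
    have h3 := hh2 (indicatorConstLp 2 hBm hμ 1)
    simp only [L2.inner_indicatorConstLp_one] at h3
    have hr : (volume.restrict (Ico α (α + 1))).restrict B = volume.restrict B := by
      rw [Measure.restrict_restrict hBm, inter_eq_self_of_subset_left hBs]
    rw [hr] at h3
    refine h3.congr fun n => ?_
    refine integral_congr_ae ?_
    have h4 := (hm n).coeFn_toLp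
    rw [← hr]
    exact ae_restrict_of_ae h4

/-! ## The main estimate -/

lemma key (ha : LipschitzWith (1 / 10) a) {α C : ℝ} (hB : BB a α C)
    (f : ℝ → ℂ) (hf : MemLp f 2 volume) (hfi : Integrable f) (hfs : ∀ s, s ∉ Ico α (α + 1) → f s = 0)
    {t ε δ : ℝ} (hε : 0 < ε) (hsub : Metric.closedBall t (ε / 4) ⊆ Ico α (α + 1))
    (hδ : 0 < δ) (hδ1 : δ ≤ 1) :
    ‖∫ s in {s : ℝ | ε < |s - t|}, f s / (G a s - G a t)‖ * (ε / 2) ≤
      ‖∫ x in Metric.closedBall t (ε / 4), hh a α δ f x‖ +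
      C * √(ε / 2) * √(∫ s in Metric.closedBall t ε, ‖f s‖ ^ 2) +
      (ε / 2) * (2 * (ε + δ) * ∫ s in {s : ℝ | ε < |s - t|}, ‖f s‖ * (1 / (s - t) ^ 2)) := by
  set I := Ico α (α + 1) with hI
  set A := {s : ℝ | ε < |s - t|} with hA
  set B := Metric.closedBall t (ε / 4) with hBdef
  have hAm : MeasurableSet A := by
    apply measurableSet_lt <;> fun_prop
  have hAc : Aᶜ = Metric.closedBall t ε := by
    ext s; simp [hA, Real.dist_eq]
  have hBm : MeasurableSet B := Metric.isClosed_closedBall.measurableSet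
  have hBvol : volume B = ENNReal.ofReal (ε / 2) := by
    rw [hBdef, Real.volume_closedBall]; congr 1; ring
  have hBr : volume.real B = ε / 2 := by
    rw [Measure.real, hBvol, ENNReal.toReal_ofReal (by positivity)]
  have hBfin : volume B < ⊤ := by rw [hBvol]; exact ENNReal.ofReal_lt_top
  -- functions
  set f1 : ℝ → ℂ := (Aᶜ).indicator f with hf1
  have hf1m : MemLp f1 2 volume := hf.indicator hAm.compl
  have hIf : Integrable f (volume.restrict I) := hfi.restrict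
  have hIf1 : Integrable f1 (volume.restrict I) := (hfi.indicator hAm.compl).restrict
  have hfull : ∀ x, hh a α δ f x = ∫ s, f s * K a δ x s := by
    intro x
    unfold hh
    refine setIntegral_eq_integral_of_forall_compl_eq_zero fun s hs => ?_
    rw [hfs s hs, zero_mul]
  have hfull1 : ∀ x, hh a α δ f1 x = ∫ s in Aᶜ, f s * K a δ x s := by
    intro x
    unfold hh
    rw [setIntegral_eq_integral_of_forall_compl_eq_zero, ← integral_indicator hAm.compl]
    · congr 1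
      funext s
      by_cases hs : s ∈ Aᶜ
      · simp [hf1, hs]
      · simp [hf1, hs]
    · intro s hs
      have : f1 s = 0 := by
        rw [hf1]
        by_cases h : s ∈ Aᶜ
        · rw [indicator_of_mem h, hfs s hs]
        · rw [indicator_of_notMem h]
      rw [this, zero_mul]
  have hAint : IntegrableOn (fun s => f s / (G a s - G a t)) A := by
    refine Integrable.mono' (g := fun s => ‖f s‖ * (9 / 10 * ε)⁻¹) (hfi.norm.mul_const _).integrableOn
      ?_ ?_
    · have hc := ha.continuous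
      have hG : Measurable fun s : ℝ => G a s - G a t := by
        unfold G
        exact Continuous.measurable (by fun_prop)
      exact (hfi.aestronglyMeasurable.restrict.aemeasurable.div
        hG.aemeasurable).aestronglyMeasurable
    · refine (ae_restrict_iff' hAm).mpr (Eventually.of_forall fun s hs => ?_)
      rw [norm_div, div_eq_mul_inv]
      have h1 : 9 / 10 * |s - t| ≤ ‖G a s - G a t‖ := by simpa using den_lower ha t s 0
      have h2 : 9 / 10 * ε ≤ ‖G a s - G a t‖ := by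
        have : ε < |s - t| := hs
        linarith
      gcongr
  have hwint : IntegrableOn (fun s => ‖f s‖ * (1 / (s - t) ^ 2)) A := by
    refine Integrable.mono' (g := fun s => ‖f s‖ * (1 / ε ^ 2)) (hfi.norm.mul_const _).integrableOn
      ?_ ?_
    · refine (hfi.norm.aestronglyMeasurable.restrict).mul ?_
      exact Measurable.aestronglyMeasurable (by fun_prop)
    · refine (ae_restrict_iff' hAm).mpr (Eventually.of_forall fun s hs => ?_)
      have h1 : ε < |s - t| := hs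
      have h2 : ε ^ 2 ≤ (s - t) ^ 2 := by
        rw [← sq_abs (s - t)]; gcongr
      rw [Real.norm_of_nonneg (by positivity)]
      gcongr
  set T := ∫ s in A, f s / (G a s - G a t) with hT
  set E : ℝ → ℂ := fun x => T - hh a α δ f x + hh a α δ f1 x with hE
  have hEeq : ∀ x, E x = ∫ s in A, f s * ((G a s - G a t)⁻¹ - K a δ x s) := by
    intro x
    have e1 : ∫ s in A, f s * ((G a s - G a t)⁻¹ - K a δ x s) =
        T - ∫ s in A, f s * K a δ x s := by
      rw [hT, ← integral_sub hAint (fK_int ha hδ hfi x).integrableOn]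
      congr 1
      funext s
      rw [div_eq_mul_inv]; ring
    have e2 := integral_add_compl hAm (fK_int ha hδ hfi x)
    rw [e1, hE]
    simp only
    rw [hfull x, hfull1 x, ← e2]
    ring
  have hEbound : ∀ x ∈ B, ‖E x‖ ≤ 2 * (ε + δ) * ∫ s in A, ‖f s‖ * (1 / (s - t) ^ 2) := by
    intro x hx
    rw [hEeq, ← integral_const_mul]
    refine norm_integral_le_of_norm_le (hwint.const_mul _) ?_
    refine (ae_restrict_iff' hAm).mpr (Eventually.of_forall fun s hs => ?_)
    rw [norm_mul]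
    have hxt : |x - t| ≤ ε / 4 := by
      rw [← Real.dist_eq]; exact hx
    have := K_diff ha hδ hxt hε hs
    calc ‖f s‖ * ‖(G a s - G a t)⁻¹ - K a δ x s‖ ≤ ‖f s‖ * (2 * (ε + δ) / (s - t) ^ 2) := by gcongr
      _ = _ := by ring
  have hc1 := hh_cont ha (α := α) hδ hIf
  have hc2 := hh_cont ha (α := α) hδ hIf1
  have hBc : IsCompact B := isCompact_closedBall _ _
  have hi1 : IntegrableOn (hh a α δ f) B := hc1.continuousOn.integrableOn_compact hBc
  have hi2 : IntegrableOn (hh a α δ f1) B := hc2.continuousOn.integrableOn_compact hBc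
  have hiT : IntegrableOn (fun _ : ℝ => T) B := integrableOn_const (hs := hBfin.ne)
  have hTint : ∫ x in B, T = (ε / 2 : ℝ) • T := by
    rw [setIntegral_const, hBr]
  have hsum : (ε / 2 : ℝ) • T = (∫ x in B, hh a α δ f x) - (∫ x in B, hh a α δ f1 x) +
      ∫ x in B, E x := by
    have e0 : ∫ x in B, E x = ((∫ x in B, T) - ∫ x in B, hh a α δ f x) +
        ∫ x in B, hh a α δ f1 x := by
      rw [← integral_sub hiT hi1]
      exact integral_add (hiT.sub hi1) hi2
    rw [e0, hTint]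
    ring
  have hEint : ‖∫ x in B, E x‖ ≤ (ε / 2) * (2 * (ε + δ) * ∫ s in A, ‖f s‖ * (1 / (s - t) ^ 2)) := by
    have := norm_setIntegral_le_of_norm_le_const hBfin hEbound
    rw [hBr] at this
    linarith
  -- second term
  set g : ℝ → ℂ := B.indicator (fun _ => (1 : ℂ)) with hg
  have hgm : MemLp g 2 (volume.restrict I) := by
    refine MemLp.of_bound ?_ 1 ?_
    · exact ((measurable_const.indicator hBm)).aestronglyMeasurable
    · refine Eventually.of_forall fun x => ?_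
      rw [hg]
      by_cases hx : x ∈ B
      · simp [hx]
      · simp [hx]
  have h2 := BB' hB hδ hδ1 g f1 hgm (hf1m.restrict I)
  have e1 : ∫ x in I, g x * hh a α δ f1 x = ∫ x in B, hh a α δ f1 x := by
    rw [← inter_eq_self_of_subset_left hsub, ← Measure.restrict_restrict hBm,
      ← integral_indicator hBm]
    congr 1
    funext x
    by_cases hx : x ∈ B
    · simp [hg, hx]
    · simp [hg, hx]
  have e2 : ∫ x in I, ‖g x‖ ^ 2 = ε / 2 := by
    have : ∀ x, ‖g x‖ ^ 2 = B.indicator (fun _ => (1 : ℝ)) x := by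
      intro x
      by_cases hx : x ∈ B
      · simp [hg, hx]
      · simp [hg, hx]
    simp_rw [this]
    rw [integral_indicator hBm, Measure.restrict_restrict hBm, inter_eq_self_of_subset_left hsub,
      setIntegral_const, hBr]
    simp
  have e3 : ∫ x in I, ‖f1 x‖ ^ 2 = ∫ x in Metric.closedBall t ε, ‖f x‖ ^ 2 := by
    rw [setIntegral_eq_integral_of_forall_compl_eq_zero, ← hAc, ← integral_indicator hAm.compl]
    · congr 1
      funext x
      by_cases hx : x ∈ Aᶜ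
      · simp [hf1, hx]
      · simp [hf1, hx]
    · intro s hs
      have : f1 s = 0 := by
        rw [hf1]
        by_cases h : s ∈ Aᶜ
        · rw [indicator_of_mem h, hfs s hs]
        · rw [indicator_of_notMem h]
      rw [this]; simp
  rw [e1, e2, e3] at h2
  have hn : ‖(ε / 2 : ℝ) • T‖ = ‖T‖ * (ε / 2) := by
    rw [norm_smul, Real.norm_of_nonneg (by positivity)]; ring
  rw [← hn, hsum]
  refine (norm_add_le _ _).trans (add_le_add ((norm_sub_le _ _).trans (add_le_add le_rfl h2)) hEint)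


lemma key_lim (ha : LipschitzWith (1 / 10) a) {α C : ℝ} (hB : BB a α C)
    (f : ℝ → ℂ) (hf : MemLp f 2 volume) (hfi : Integrable f) (hfs : ∀ s, s ∉ Ico α (α + 1) → f s = 0)
    (h : ℝ → ℂ)
    (hconv : ∀ B : Set ℝ, MeasurableSet B → B ⊆ Ico α (α + 1) →
        Tendsto (fun n : ℕ => ∫ x in B, hh a α (1 / ((n : ℝ) + 1)) f x)
          (hyperfilter ℕ : Filter ℕ) (𝓝 (∫ x in B, h x)))
    {t ε : ℝ} (hε : 0 < ε) (hsub : Metric.closedBall t (ε / 4) ⊆ Ico α (α + 1)) :
    ‖∫ s in {s : ℝ | ε < |s - t|}, f s / (G a s - G a t)‖ * (ε / 2) ≤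
      ‖∫ x in Metric.closedBall t (ε / 4), h x‖ +
      C * √(ε / 2) * √(∫ s in Metric.closedBall t ε, ‖f s‖ ^ 2) +
      (ε / 2) * (2 * ε * ∫ s in {s : ℝ | ε < |s - t|}, ‖f s‖ * (1 / (s - t) ^ 2)) := by
  have hδ : ∀ n : ℕ, 0 < 1 / ((n : ℝ) + 1) := fun n => by positivity
  have hδ1 : ∀ n : ℕ, 1 / ((n : ℝ) + 1) ≤ 1 := fun n => by
    rw [div_le_one (by positivity)]; linarith [(Nat.cast_nonneg n : (0 : ℝ) ≤ n)]
  have h0 : Tendsto (fun n : ℕ => 1 / ((n : ℝ) + 1)) (hyperfilter ℕ : Filter ℕ) (𝓝 0) :=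
    tendsto_one_div_add_atTop_nhds_zero_nat.mono_left Nat.hyperfilter_le_atTop
  have h1 := (hconv _ (Metric.isClosed_closedBall.measurableSet) hsub).norm
  have h2 : Tendsto (fun n : ℕ =>
      ‖∫ x in Metric.closedBall t (ε / 4), hh a α (1 / ((n : ℝ) + 1)) f x‖ +
      C * √(ε / 2) * √(∫ s in Metric.closedBall t ε, ‖f s‖ ^ 2) +
      (ε / 2) * (2 * (ε + 1 / ((n : ℝ) + 1)) *
        ∫ s in {s : ℝ | ε < |s - t|}, ‖f s‖ * (1 / (s - t) ^ 2))) (hyperfilter ℕ : Filter ℕ)
      (𝓝 (‖∫ x in Metric.closedBall t (ε / 4), h x‖ +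
      C * √(ε / 2) * √(∫ s in Metric.closedBall t ε, ‖f s‖ ^ 2) +
      (ε / 2) * (2 * (ε + 0) *
        ∫ s in {s : ℝ | ε < |s - t|}, ‖f s‖ * (1 / (s - t) ^ 2)))) :=
    (h1.add_const _).add ((((h0.const_add ε).const_mul 2).mul_const _).const_mul _)
  rw [add_zero] at h2
  exact ge_of_tendsto h2 (Eventually.of_forall fun n =>
    key ha hB f hf hfi hfs hε hsub (hδ n) (hδ1 n))

lemma key_enn (ha : LipschitzWith (1 / 10) a) {α C : ℝ} (hC : 0 ≤ C) (hB : BB a α C)
    (f : ℝ → ℂ) (hf : MemLp f 2 volume) (hfi : Integrable f) (hfs : ∀ s, s ∉ Ico α (α + 1) → f s = 0)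
    (h : ℝ → ℂ)
    (hconv : ∀ B : Set ℝ, MeasurableSet B → B ⊆ Ico α (α + 1) →
        Tendsto (fun n : ℕ => ∫ x in B, hh a α (1 / ((n : ℝ) + 1)) f x)
          (hyperfilter ℕ : Filter ℕ) (𝓝 (∫ x in B, h x)))
    {t ε : ℝ} (hε : 0 < ε) (hsub : Metric.closedBall t (ε / 4) ⊆ Ico α (α + 1)) :
    ‖∫ s in {s : ℝ | ε < |s - t|}, f s / (G a s - G a t)‖ₑ ≤
      (‖⨍ x in Metric.closedBall t (ε / 4), h x‖ₑ +
      ENNReal.ofReal (C * √(4 * ⨍ s in Metric.closedBall t ε, ‖f s‖ ^ 2))) +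
      2 * ∫⁻ s in {s : ℝ | ε < |s - t|}, ‖f s‖ₑ * ENNReal.ofReal (ε / (s - t) ^ 2) := by
  have hk := key_lim ha hB f hf hfi hfs h hconv hε hsub
  set A := {s : ℝ | ε < |s - t|} with hA
  have hAm : MeasurableSet A := by
    apply measurableSet_lt <;> fun_prop
  set T := ∫ s in A, f s / (G a s - G a t) with hT
  have hwint : IntegrableOn (fun s => ‖f s‖ * (ε / (s - t) ^ 2)) A := by
    refine Integrable.mono' (g := fun s => ‖f s‖ * (ε / ε ^ 2)) (hfi.norm.mul_const _).integrableOn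
      ?_ ?_
    · refine (hfi.norm.aestronglyMeasurable.restrict).mul ?_
      exact Measurable.aestronglyMeasurable (by fun_prop)
    · refine (ae_restrict_iff' hAm).mpr (Eventually.of_forall fun s hs => ?_)
      have h1 : ε < |s - t| := hs
      have h2 : ε ^ 2 ≤ (s - t) ^ 2 := by
        rw [← sq_abs (s - t)]; gcongr
      rw [Real.norm_of_nonneg (by positivity)]
      gcongr
  have e1 : ⨍ x in Metric.closedBall t (ε / 4), h x =
      (ε / 2)⁻¹ • ∫ x in Metric.closedBall t (ε / 4), h x := by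
    rw [setAverage_eq, Measure.real, Real.volume_closedBall, ENNReal.toReal_ofReal (by positivity)]
    congr 2; ring
  have e2 : ⨍ s in Metric.closedBall t ε, ‖f s‖ ^ 2 =
      (2 * ε)⁻¹ • ∫ s in Metric.closedBall t ε, ‖f s‖ ^ 2 := by
    rw [setAverage_eq, Measure.real, Real.volume_closedBall, ENNReal.toReal_ofReal (by positivity)]
  have e3 : √(ε / 2) * √(∫ s in Metric.closedBall t ε, ‖f s‖ ^ 2) =
      √(4 * ⨍ s in Metric.closedBall t ε, ‖f s‖ ^ 2) * (ε / 2) := by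
    rw [e2, ← Real.sqrt_mul (by positivity)]
    conv_rhs => rw [← Real.sqrt_sq (show 0 ≤ ε / 2 by positivity)]
    rw [← Real.sqrt_mul' _ (by positivity)]
    congr 1
    rw [smul_eq_mul]
    field_simp
    ring
  have e4 : ‖∫ x in Metric.closedBall t (ε / 4), h x‖ =
      ‖⨍ x in Metric.closedBall t (ε / 4), h x‖ * (ε / 2) := by
    rw [e1, norm_smul, norm_inv, Real.norm_of_nonneg (show 0 ≤ ε / 2 by positivity)]
    field_simp
  have e5 : ε * ∫ s in A, ‖f s‖ * (1 / (s - t) ^ 2) = ∫ s in A, ‖f s‖ * (ε / (s - t) ^ 2) := by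
    rw [← integral_const_mul]
    congr 1
    funext s
    ring
  have hreal : ‖T‖ ≤ (‖⨍ x in Metric.closedBall t (ε / 4), h x‖ +
      C * √(4 * ⨍ s in Metric.closedBall t ε, ‖f s‖ ^ 2)) +
      2 * ∫ s in A, ‖f s‖ * (ε / (s - t) ^ 2) := by
    have h2 : 0 < ε / 2 := by positivity
    refine le_of_mul_le_mul_right (hk.trans (le_of_eq ?_)) h2
    rw [mul_assoc C, e3, e4, ← e5]
    ring
  rw [← ofReal_norm]
  refine (ENNReal.ofReal_le_ofReal hreal).trans (le_of_eq ?_)
  have hav : 0 ≤ C * √(4 * ⨍ s in Metric.closedBall t ε, ‖f s‖ ^ 2) := by positivity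
  have hin : 0 ≤ ∫ s in A, ‖f s‖ * (ε / (s - t) ^ 2) :=
    integral_nonneg fun s => by positivity
  rw [ENNReal.ofReal_add (by positivity) (by positivity), ENNReal.ofReal_add (by positivity) hav,
    ofReal_norm, ENNReal.ofReal_mul (p := 2) (by norm_num),
    ofReal_integral_eq_lintegral_ofReal hwint (Eventually.of_forall fun s => by positivity)]
  congr 2
  · norm_num
  · refine lintegral_congr fun s => ?_
    rw [ENNReal.ofReal_mul (norm_nonneg _), ofReal_norm]

lemma limsup_aux {u v w : ℝ → ℝ≥0∞} {l : Filter ℝ} {U V : ℝ≥0∞}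
    (hw : ∀ᶠ ε in l, w ε ≤ u ε + 2 * v ε) (hu : Tendsto u l (𝓝 U)) (hv : limsup v l ≤ V) :
    limsup w l ≤ U + 2 * V := by
  refine ENNReal.le_of_forall_pos_le_add fun η hη hfin => ?_
  have hU : U ≠ ⊤ := by
    intro h; rw [h] at hfin; simp at hfin
  have hV : V ≠ ⊤ := by
    intro h; rw [h] at hfin; simp at hfin
  have hη2 : (0 : ℝ≥0∞) < (η : ℝ≥0∞) / 2 := by
    simp [hη.ne']
  have hη4 : (0 : ℝ≥0∞) < (η : ℝ≥0∞) / 4 := by
    simp [hη.ne']
  have h1 : ∀ᶠ ε in l, u ε < U + η / 2 :=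
    hu.eventually (gt_mem_nhds (ENNReal.lt_add_right hU hη2.ne'))
  have h2 : ∀ᶠ ε in l, v ε < V + η / 4 :=
    eventually_lt_of_limsup_lt (hv.trans_lt (ENNReal.lt_add_right hV hη4.ne'))
  refine limsup_le_of_le (by isBoundedDefault) ?_
  filter_upwards [hw, h1, h2] with ε hw h1 h2
  calc w ε ≤ u ε + 2 * v ε := hw
    _ ≤ (U + η / 2) + 2 * (V + η / 4) := by gcongr
    _ = U + 2 * V + (η / 2 + 2 * (η / 4)) := by ring
    _ = U + 2 * V + η := by
      congr 1
      have : (2 : ℝ≥0∞) * (η / 4) = η / 2 := by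
        rw [show (4 : ℝ≥0∞) = 2 * 2 by norm_num, ← mul_div_assoc,
          ENNReal.mul_div_mul_left _ _ (by norm_num) (by norm_num)]
      rw [this, ENNReal.add_halves]


lemma sq_lintegral {μ : Measure ℝ} {u : ℝ → ℂ} (hu : MemLp u 2 μ) :
    ∫⁻ x, ‖u x‖ₑ ^ 2 ∂μ = ENNReal.ofReal (∫ x, ‖u x‖ ^ 2 ∂μ) := by
  rw [ofReal_integral_eq_lintegral_ofReal ((memLp_two_iff_integrable_sq_norm hu.1).mp hu)
    (Eventually.of_forall fun s => by positivity)]
  refine lintegral_congr fun x => ?_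
  rw [ENNReal.ofReal_pow (norm_nonneg _), ofReal_norm]

lemma add_sq_enn (x y : ℝ≥0∞) : (x + y) ^ 2 ≤ 4 * x ^ 2 + 4 * y ^ 2 := by
  rcases le_total x y with h | h
  · calc (x + y) ^ 2 ≤ (y + y) ^ 2 := by gcongr
      _ = 4 * y ^ 2 := by ring
      _ ≤ _ := le_add_self
  · calc (x + y) ^ 2 ≤ (x + x) ^ 2 := by gcongr
      _ = 4 * x ^ 2 := by ring
      _ ≤ _ := le_self_add

theorem taskLimit : TaskLimit := by
  rintro hTail ⟨C, hC, hB⟩
  refine ⟨Real.toNNReal (4 * C ^ 2 + 4 * (2 * C + 32) ^ 2), fun a ha α f hf hfs => ?_⟩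
  set I := Ico α (α + 1) with hI
  have hIm : MeasurableSet I := measurableSet_Ico
  have hBB : BB a α C := fun δ hδ hδ1 f g hf hg => hB a ha α δ hδ hδ1 f g hf hg
  obtain ⟨h, hsm, hmem, hnorm, hconv⟩ := exists_h ha hC.le hBB f (hf.restrict _)
  have hfi : Integrable f := by
    rw [← integrableOn_iff_integrable_of_support_subset (s := I)]
    · exact (hf.restrict I).integrable (by norm_num)
    · intro s hs
      by_contra h
      exact hs (hfs s h)
  obtain ⟨f', hf'm, hff'⟩ := hf.1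
  set h' : ℝ → ℂ := I.indicator h with hh'
  have hh'i : Integrable h' := by
    rw [hh', integrable_indicator_iff hIm]
    exact hmem.integrable (by norm_num)
  have hsq : Integrable fun s => ‖f s‖ ^ 2 := (memLp_two_iff_integrable_sq_norm hf.1).mp hf
  refine ⟨fun t => ‖h' t‖ₑ + ENNReal.ofReal (2 * C + 32) * ‖f' t‖ₑ, ?_, ?_, ?_⟩
  · exact ((hsm.indicator hIm).measurable.enorm).add (hf'm.measurable.enorm.const_mul _)
  · filter_upwards [hTail f hfi, hff',
      IsUnifLocDoublingMeasure.ae_tendsto_average volume hh'i.locallyIntegrable 1,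
      IsUnifLocDoublingMeasure.ae_tendsto_average volume hsq.locallyIntegrable 1] with t h1 h2 h3 h4 ht
    have l0 : Tendsto (fun ε : ℝ => ε) (𝓝[>] (0 : ℝ)) (𝓝[>] (0 : ℝ)) := tendsto_id
    have l4 : Tendsto (fun ε : ℝ => ε / 4) (𝓝[>] (0 : ℝ)) (𝓝[>] (0 : ℝ)) := by
      refine tendsto_nhdsWithin_iff.mpr ⟨?_, ?_⟩
      · have : Tendsto (fun ε : ℝ => ε / 4) (𝓝 (0 : ℝ)) (𝓝 (0 / 4)) := tendsto_id.div_const 4
        rw [zero_div] at this
        exact this.mono_left nhdsWithin_le_nhds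
      · filter_upwards [self_mem_nhdsWithin] with ε hε
        have hε' : (0 : ℝ) < ε := hε
        exact (by positivity : (0 : ℝ) < ε / 4)
    have hpos : ∀ᶠ ε : ℝ in 𝓝[>] (0 : ℝ), 0 < ε := self_mem_nhdsWithin
    have h3' := h3 (fun _ : ℝ => t) (fun ε => ε / 4) l4 (by
      filter_upwards [hpos] with ε hε
      rw [one_mul]
      exact Metric.mem_closedBall_self (by positivity))
    have h4' := h4 (fun _ : ℝ => t) (fun ε => ε) l0 (by
      filter_upwards [hpos] with ε hε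
      rw [one_mul]
      exact Metric.mem_closedBall_self hε.le)
    have hnb : Ioo α (α + 1) ∈ 𝓝 t := isOpen_Ioo.mem_nhds ht
    obtain ⟨r, hr, hrs⟩ := Metric.nhds_basis_closedBall.mem_iff.mp hnb
    have hsmall : ∀ᶠ ε : ℝ in 𝓝[>] (0 : ℝ), ε ≤ r := by
      have : Iic r ∈ 𝓝 (0 : ℝ) := Iic_mem_nhds hr
      exact mem_nhdsWithin_of_mem_nhds this
    have hsubI : ∀ ε : ℝ, 0 < ε → ε ≤ r → Metric.closedBall t (ε / 4) ⊆ I := by
      intro ε hε hεr
      refine (Metric.closedBall_subset_closedBall (by linarith)).trans (hrs.trans Ioo_subset_Ico_self)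
    have hU : Tendsto (fun ε : ℝ => ‖⨍ x in Metric.closedBall t (ε / 4), h' x‖ₑ +
        ENNReal.ofReal (C * √(4 * ⨍ s in Metric.closedBall t ε, ‖f s‖ ^ 2))) (𝓝[>] (0 : ℝ))
        (𝓝 (‖h' t‖ₑ + ENNReal.ofReal (C * √(4 * ‖f t‖ ^ 2)))) := by
      refine h3'.enorm.add ?_
      refine ENNReal.tendsto_ofReal ?_
      exact ((Real.continuous_sqrt.tendsto _).comp (h4'.const_mul 4)).const_mul C
    have hw : ∀ᶠ ε : ℝ in 𝓝[>] (0 : ℝ),
        ‖∫ s in {s : ℝ | ε < |s - t|}, f s / (G a s - G a t)‖ₑ ≤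
        (‖⨍ x in Metric.closedBall t (ε / 4), h' x‖ₑ +
        ENNReal.ofReal (C * √(4 * ⨍ s in Metric.closedBall t ε, ‖f s‖ ^ 2))) +
        2 * ∫⁻ s in {s : ℝ | ε < |s - t|}, ‖f s‖ₑ * ENNReal.ofReal (ε / (s - t) ^ 2) := by
      filter_upwards [hpos, hsmall] with ε hε hεr
      have hsub := hsubI ε hε hεr
      have hav : ⨍ x in Metric.closedBall t (ε / 4), h' x =
          ⨍ x in Metric.closedBall t (ε / 4), h x := by
        rw [setAverage_eq, setAverage_eq]
        congr 1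
        refine setIntegral_congr_fun Metric.isClosed_closedBall.measurableSet fun x hx => ?_
        rw [hh']
        exact indicator_of_mem (hsub hx) _
      rw [hav]
      exact key_enn ha hC.le hBB f hf hfi hfs h hconv hε hsub
    refine (limsup_aux hw hU h1).trans (le_of_eq ?_)
    have e1 : √(4 * ‖f t‖ ^ 2) = 2 * ‖f t‖ := by
      rw [show 4 * ‖f t‖ ^ 2 = (2 * ‖f t‖) ^ 2 by ring, Real.sqrt_sq (by positivity)]
    rw [e1, ← h2, add_assoc]
    congr 1
    rw [show C * (2 * ‖f t‖) = (2 * C) * ‖f t‖ by ring, ENNReal.ofReal_mul (by positivity),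
      ofReal_norm, ENNReal.ofReal_add (by positivity) (by norm_num)]
    rw [show ENNReal.ofReal 32 = 2 * 16 by
      rw [show (32 : ℝ) = 2 * 16 by norm_num, ENNReal.ofReal_mul (by norm_num)]; norm_num]
    ring
  · have e1 : ∫⁻ t, ‖h' t‖ₑ ^ 2 ≤ ENNReal.ofReal (C ^ 2) * ∫⁻ s, ‖f s‖ₑ ^ 2 := by
      have : ∀ t, ‖h' t‖ₑ ^ 2 = I.indicator (fun t => ‖h t‖ₑ ^ 2) t := by
        intro t
        by_cases ht : t ∈ I
        · simp [hh', ht]
        · simp [hh', ht]
      simp_rw [this]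
      rw [lintegral_indicator hIm, sq_lintegral hmem, sq_lintegral hf,
        ← ENNReal.ofReal_mul (by positivity)]
      refine ENNReal.ofReal_le_ofReal ?_
      have h1 : 0 ≤ ∫ x in I, ‖h x‖ ^ 2 := integral_nonneg fun x => by positivity
      have h2 : 0 ≤ ∫ x in I, ‖f x‖ ^ 2 := integral_nonneg fun x => by positivity
      have h3 : ∫ x in I, ‖f x‖ ^ 2 ≤ ∫ x, ‖f x‖ ^ 2 :=
        setIntegral_le_integral hsq (Eventually.of_forall fun x => by positivity)
      calc ∫ x in I, ‖h x‖ ^ 2 = √(∫ x in I, ‖h x‖ ^ 2) ^ 2 := (Real.sq_sqrt h1).symm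
        _ ≤ (C * √(∫ x in I, ‖f x‖ ^ 2)) ^ 2 := by gcongr
        _ = C ^ 2 * ∫ x in I, ‖f x‖ ^ 2 := by rw [mul_pow, Real.sq_sqrt h2]
        _ ≤ _ := by gcongr
    have e2 : ∫⁻ t, ‖f' t‖ₑ ^ 2 = ∫⁻ s, ‖f s‖ₑ ^ 2 := by
      refine lintegral_congr_ae ?_
      filter_upwards [hff'] with t ht
      rw [ht]
    calc ∫⁻ t, (‖h' t‖ₑ + ENNReal.ofReal (2 * C + 32) * ‖f' t‖ₑ) ^ 2
        ≤ ∫⁻ t, (4 * ‖h' t‖ₑ ^ 2 + 4 * ENNReal.ofReal (2 * C + 32) ^ 2 * ‖f' t‖ₑ ^ 2) := by
          refine lintegral_mono fun t => (add_sq_enn _ _).trans (le_of_eq ?_)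
          ring
      _ = 4 * (∫⁻ t, ‖h' t‖ₑ ^ 2) +
          4 * ENNReal.ofReal (2 * C + 32) ^ 2 * ∫⁻ t, ‖f' t‖ₑ ^ 2 := by
          rw [lintegral_add_right, lintegral_const_mul, lintegral_const_mul]
          · exact (hf'm.measurable.enorm).pow_const 2
          · exact ((hsm.indicator hIm).measurable.enorm).pow_const 2
          · exact ((hf'm.measurable.enorm).pow_const 2).const_mul _
      _ ≤ 4 * (ENNReal.ofReal (C ^ 2) * ∫⁻ s, ‖f s‖ₑ ^ 2) +
          4 * ENNReal.ofReal (2 * C + 32) ^ 2 * ∫⁻ s, ‖f s‖ₑ ^ 2 := by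
          rw [e2]; gcongr
      _ = _ := by
          rw [show ((Real.toNNReal (4 * C ^ 2 + 4 * (2 * C + 32) ^ 2) : ℝ≥0) : ℝ≥0∞) =
            ENNReal.ofReal (4 * C ^ 2 + 4 * (2 * C + 32) ^ 2) from rfl,
            ENNReal.ofReal_add (p := 4 * C ^ 2) (q := 4 * (2 * C + 32) ^ 2) (by positivity)
              (by positivity),
            ENNReal.ofReal_mul (p := 4) (q := C ^ 2) (by norm_num),
            ENNReal.ofReal_mul (p := 4) (q := (2 * C + 32) ^ 2) (by norm_num),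
            ENNReal.ofReal_pow (p := 2 * C + 32) (by positivity)]
          rw [show ENNReal.ofReal 4 = 4 by norm_num]
          ring

end Pool.Agent.H71R3.Cau
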